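import Pool.Agent.Helper7.BM.Goals

/-!
# Packet AB of project BM: Baker's method, abstract form
-/

set_option autoImplicit false

open Finset

namespace Pool.Agent.Helper50.BM

open Pool.Agent.Helper7.BM

theorem coeff_le (M : ℝ) (hM : 2 ≤ M) (m1 m2 l : ℕ) (n1 n2 n3 : ℝ) (h1 : (m1 : ℝ) ≤ M ^ 17)
    (h2 : (m2 : ℝ) ≤ M ^ 17) (h3 : ((l + 1 : ℕ) : ℝ) ≤ M ^ 3) (k1 : |n1| ≤ Real.exp M)
    (k2 : |n2| ≤ Real.exp M) (k3 : |n3| ≤ Real.exp (2 * M ^ 14)) :
    |n1 ^ m1 * n2 ^ m2 * n3 ^ (l + 1)| ≤ Real.exp (3 * M ^ 18) := by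
  have hM0 : 0 ≤ M := by linarith
  rw [abs_mul, abs_mul, abs_pow, abs_pow, abs_pow]
  have e1 : |n1| ^ m1 ≤ Real.exp (M ^ 18) := by
    calc |n1| ^ m1 ≤ (Real.exp M) ^ m1 := by gcongr
      _ = Real.exp (m1 * M) := by rw [← Real.exp_nat_mul]
      _ ≤ Real.exp (M ^ 18) := by
        apply Real.exp_le_exp.mpr
        calc (m1 : ℝ) * M ≤ M ^ 17 * M := by gcongr
          _ = M ^ 18 := by ring
  have e2 : |n2| ^ m2 ≤ Real.exp (M ^ 18) := by
    calc |n2| ^ m2 ≤ (Real.exp M) ^ m2 := by gcongr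
      _ = Real.exp (m2 * M) := by rw [← Real.exp_nat_mul]
      _ ≤ Real.exp (M ^ 18) := by
        apply Real.exp_le_exp.mpr
        calc (m2 : ℝ) * M ≤ M ^ 17 * M := by gcongr
          _ = M ^ 18 := by ring
  have e3 : |n3| ^ (l + 1) ≤ Real.exp (M ^ 18) := by
    calc |n3| ^ (l + 1) ≤ (Real.exp (2 * M ^ 14)) ^ (l + 1) := by gcongr
      _ = Real.exp (((l + 1 : ℕ) : ℝ) * (2 * M ^ 14)) := by rw [← Real.exp_nat_mul]
      _ ≤ Real.exp (M ^ 18) := by
        apply Real.exp_le_exp.mpr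
        calc ((l + 1 : ℕ) : ℝ) * (2 * M ^ 14) ≤ M ^ 3 * (2 * M ^ 14) := by gcongr
          _ = 2 * M ^ 17 := by ring
          _ ≤ M * M ^ 17 := by gcongr
          _ = M ^ 18 := by ring
  calc |n1| ^ m1 * |n2| ^ m2 * |n3| ^ (l + 1)
      ≤ Real.exp (M ^ 18) * Real.exp (M ^ 18) * Real.exp (M ^ 18) := by gcongr
    _ = Real.exp (3 * M ^ 18) := by
      rw [← Real.exp_add, ← Real.exp_add]
      congr 1
      ring

theorem ab (h1 : StmtSIEG) (h2 : StmtSTEP) (h3 : StmtVAND) : StmtAB := by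
  intro ι _ M D g1 g2 A w1 w2 hM hcard hbig hg hAinj hApos hlog hD1 hDlog hk
  by_contra hcon
  push Not at hcon
  choose k hk using hk
  have hM2 : (2 : ℝ) ≤ M := by
    have : 2 ≤ M := le_trans (by norm_num) hM
    exact_mod_cast this
  have hM0 : (0 : ℝ) ≤ M := by linarith
  have hDpos : (0 : ℝ) < D := by exact_mod_cast hD1
  have hkb : ∀ i, |((k i : ℤ) : ℝ)| ≤ Real.exp (2 * (M : ℝ) ^ 14) := by
    intro i
    rw [← hk i, abs_of_pos (mul_pos hDpos (hApos i))]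
    have e1 : (D : ℝ) ≤ Real.exp ((M : ℝ) ^ 14) := by
      rw [← Real.exp_log hDpos]
      exact Real.exp_le_exp.mpr hDlog
    have e2 : A i ≤ Real.exp ((M : ℝ) ^ 14) := by
      rw [← Real.exp_log (hApos i)]
      exact Real.exp_le_exp.mpr (le_trans (le_abs_self _) (hlog i))
    calc (D : ℝ) * A i ≤ Real.exp ((M : ℝ) ^ 14) * Real.exp ((M : ℝ) ^ 14) := by
          have := hApos i
          gcongr
      _ = Real.exp (2 * (M : ℝ) ^ 14) := by
          rw [← Real.exp_add]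
          congr 1
          ring
  have hcardpos : 0 < Fintype.card ι := by
    have hMpos : 0 < M := lt_of_lt_of_le (by norm_num) hM
    rcases hbig with h | h
    · have : 0 < M ^ 37 := pow_pos hMpos _
      omega
    · have : 0 < M ^ 20 := pow_pos hMpos _
      omega
  have hB1 : (1 : ℝ) ≤ Real.exp (3 * (M : ℝ) ^ 18) := Real.one_le_exp (by positivity)
  -- the coefficients
  obtain ⟨c, hc0, hceq, hcb⟩ : ∃ c : ι → ℤ, c ≠ 0 ∧
      (∀ m1 m2 l : ℕ, m1 < M ^ 17 → m2 < M ^ 17 → l < M ^ 3 →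
        ∑ i, g1 i ^ m1 * g2 i ^ m2 * k i ^ (l + 1) * c i = 0) ∧
      ∀ i, |((c i : ℤ) : ℝ)| ≤ Fintype.card ι * Real.exp (3 * (M : ℝ) ^ 18) := by
    rcases hbig with hbig | ⟨hbig, hg2⟩
    · have hcd : 2 * Fintype.card (Fin (M ^ 17) × Fin (M ^ 17) × Fin (M ^ 3)) ≤
          Fintype.card ι := by
        rw [Fintype.card_prod, Fintype.card_prod, Fintype.card_fin, Fintype.card_fin]
        calc 2 * (M ^ 17 * (M ^ 17 * M ^ 3)) = 2 * M ^ 37 := by ring
          _ ≤ Fintype.card ι := hbig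
      have hbd : ∀ (x : Fin (M ^ 17) × Fin (M ^ 17) × Fin (M ^ 3)) (i : ι),
          |((g1 i ^ (x.1 : ℕ) * g2 i ^ (x.2.1 : ℕ) * k i ^ ((x.2.2 : ℕ) + 1) : ℤ) : ℝ)| ≤
            Real.exp (3 * (M : ℝ) ^ 18) := by
        rintro ⟨m1, m2, l⟩ i
        have b1 : ((m1 : ℕ) : ℝ) ≤ (M : ℝ) ^ 17 := by exact_mod_cast m1.2.le
        have b2 : ((m2 : ℕ) : ℝ) ≤ (M : ℝ) ^ 17 := by exact_mod_cast m2.2.le
        have b3 : (((l : ℕ) + 1 : ℕ) : ℝ) ≤ (M : ℝ) ^ 3 := by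
          have := l.2
          exact_mod_cast this
        have := coeff_le M hM2 m1 m2 l _ _ _ b1 b2 b3 (hg i).1 (hg i).2 (hkb i)
        push_cast
        exact this
      obtain ⟨c, hc0, hceq, hcb⟩ := h1 ι (Fin (M ^ 17) × Fin (M ^ 17) × Fin (M ^ 3))
        (fun x i => g1 i ^ (x.1 : ℕ) * g2 i ^ (x.2.1 : ℕ) * k i ^ ((x.2.2 : ℕ) + 1))
        (Real.exp (3 * (M : ℝ) ^ 18)) hB1 hcd hcardpos hbd
      exact ⟨c, hc0, fun m1 m2 l e1 e2 e3 => hceq (⟨m1, e1⟩, ⟨m2, e2⟩, ⟨l, e3⟩), hcb⟩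
    · have hcd : 2 * Fintype.card (Fin (M ^ 17) × Fin (M ^ 3)) ≤ Fintype.card ι := by
        rw [Fintype.card_prod, Fintype.card_fin, Fintype.card_fin]
        calc 2 * (M ^ 17 * M ^ 3) = 2 * M ^ 20 := by ring
          _ ≤ Fintype.card ι := hbig
      have hbd : ∀ (x : Fin (M ^ 17) × Fin (M ^ 3)) (i : ι),
          |((g1 i ^ (x.1 : ℕ) * k i ^ ((x.2 : ℕ) + 1) : ℤ) : ℝ)| ≤
            Real.exp (3 * (M : ℝ) ^ 18) := by
        rintro ⟨m1, l⟩ i
        have b1 : ((m1 : ℕ) : ℝ) ≤ (M : ℝ) ^ 17 := by exact_mod_cast m1.2.le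
        have b2 : ((0 : ℕ) : ℝ) ≤ (M : ℝ) ^ 17 := by
          rw [Nat.cast_zero]
          positivity
        have b3 : (((l : ℕ) + 1 : ℕ) : ℝ) ≤ (M : ℝ) ^ 3 := by
          have := l.2
          exact_mod_cast this
        have := coeff_le M hM2 m1 0 l _ _ _ b1 b2 b3 (hg i).1 (hg i).2 (hkb i)
        rw [pow_zero, mul_one] at this
        push_cast
        exact this
      obtain ⟨c, hc0, hceq, hcb⟩ := h1 ι (Fin (M ^ 17) × Fin (M ^ 3))
        (fun x i => g1 i ^ (x.1 : ℕ) * k i ^ ((x.2 : ℕ) + 1))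
        (Real.exp (3 * (M : ℝ) ^ 18)) hB1 hcd hcardpos hbd
      refine ⟨c, hc0, fun m1 m2 l e1 e2 e3 => ?_, hcb⟩
      rcases Nat.eq_zero_or_pos m2 with rfl | hm2
      · have := hceq (⟨m1, e1⟩, ⟨l, e3⟩)
        simpa using this
      · apply Finset.sum_eq_zero
        intro i _
        rw [hg2 i, zero_pow (by omega)]
        ring
  have hcb' : ∀ i, |((c i : ℤ) : ℝ)| ≤ Real.exp (4 * (M : ℝ) ^ 18) := by
    intro i
    refine (hcb i).trans ?_
    have e1 : (Fintype.card ι : ℝ) ≤ (M : ℝ) ^ 39 := by exact_mod_cast hcard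
    have e2 : (M : ℝ) ^ 39 ≤ Real.exp ((M : ℝ) ^ 18) := by
      have e3 : (M : ℝ) ≤ Real.exp M := le_trans (by linarith) (Real.add_one_le_exp (M : ℝ))
      calc (M : ℝ) ^ 39 ≤ (Real.exp M) ^ 39 := by gcongr
        _ = Real.exp (((39 : ℕ) : ℝ) * M) := by rw [← Real.exp_nat_mul]
        _ ≤ Real.exp ((M : ℝ) ^ 18) := by
          apply Real.exp_le_exp.mpr
          have e4 : (39 : ℝ) ≤ (M : ℝ) ^ 17 := by
            calc (39 : ℝ) ≤ 2 ^ 17 := by norm_num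
              _ ≤ (M : ℝ) ^ 17 := by gcongr
          calc ((39 : ℕ) : ℝ) * M ≤ (M : ℝ) ^ 17 * M := by
                push_cast
                gcongr
            _ = (M : ℝ) ^ 18 := by ring
    calc (Fintype.card ι : ℝ) * Real.exp (3 * (M : ℝ) ^ 18)
        ≤ Real.exp ((M : ℝ) ^ 18) * Real.exp (3 * (M : ℝ) ^ 18) := by
          have := e1.trans e2
          gcongr
      _ = Real.exp (4 * (M : ℝ) ^ 18) := by
          rw [← Real.exp_add]
          congr 1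
          ring
  obtain ⟨t, ht⟩ : ∃ t, t = M ^ 17 / 2 ^ 36 := ⟨_, rfl⟩
  have ht1 : 2 ^ 36 * t ≤ M ^ 17 := by
    rw [ht]
    exact Nat.mul_div_le _ _
  have ht2 : 2 ^ 13 * M ^ 16 ≤ t := by
    rw [ht, Nat.le_div_iff_mul_le (by norm_num)]
    calc 2 ^ 13 * M ^ 16 * 2 ^ 36 = 2 ^ 49 * M ^ 16 := by ring
      _ ≤ M * M ^ 16 := by
        apply Nat.mul_le_mul_right
        exact le_trans (by norm_num) hM
      _ = M ^ 17 := by ring
  have htpos : 0 < t := lt_of_lt_of_le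
    (Nat.mul_pos (by norm_num) (pow_pos (lt_of_lt_of_le (by norm_num) hM) _)) ht2
  have claim : ∀ s : ℕ, s ≤ 36 → ∀ m1 m2 l : ℕ, m1 + m2 < 2 ^ (36 - s) * t → 1 ≤ l →
      l ≤ M ^ (3 + s) → ∑ i, (c i : ℝ) * (g1 i : ℝ) ^ m1 * (g2 i : ℝ) ^ m2 * A i ^ l = 0 := by
    intro s
    induction s with
    | zero =>
      intro _ m1 m2 l hm hl1 hl
      have hm' : m1 + m2 < M ^ 17 := lt_of_lt_of_le hm ht1
      obtain ⟨l', rfl⟩ : ∃ l', l = l' + 1 := ⟨l - 1, by omega⟩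
      have hl' : l' < M ^ 3 := by
        have : l' + 1 ≤ M ^ 3 := hl
        omega
      have e := hceq m1 m2 l' (by omega) (by omega) hl'
      have e' : (D : ℝ) ^ (l' + 1) *
          ∑ i, (c i : ℝ) * (g1 i : ℝ) ^ m1 * (g2 i : ℝ) ^ m2 * A i ^ (l' + 1) = 0 := by
        have e2 : ((∑ i, g1 i ^ m1 * g2 i ^ m2 * k i ^ (l' + 1) * c i : ℤ) : ℝ) = 0 := by
          rw [e, Int.cast_zero]
        rw [← e2]
        push_cast
        rw [Finset.mul_sum]
        apply Finset.sum_congr rfl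
        intro i _
        rw [← hk i]
        ring
      rcases mul_eq_zero.mp e' with h | h
      · exact absurd h (pow_ne_zero _ hDpos.ne')
      · exact h
    | succ s ih =>
      intro hs m1 m2 l hm hl1 hl
      have hs' : s ≤ 35 := by omega
      have e36 : 36 - s = (36 - (s + 1)) + 1 := by omega
      have hT1 : 2 ^ 13 * M ^ 16 ≤ 2 ^ (36 - (s + 1)) * t :=
        ht2.trans (Nat.le_mul_of_pos_left _ (pow_pos (by norm_num) _))
      have hTe : 2 * (2 ^ (36 - (s + 1)) * t) = 2 ^ (36 - s) * t := by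
        rw [e36, pow_succ]
        ring
      have hT2 : 2 * (2 ^ (36 - (s + 1)) * t) ≤ M ^ 17 := by
        rw [hTe]
        refine le_trans (Nat.mul_le_mul_right t ?_) ht1
        exact Nat.pow_le_pow_right (by norm_num) (by omega)
      refine h2 ι M s (2 ^ (36 - (s + 1)) * t) D c g1 g2 A w1 w2 hM hs' hT1 hT2 hcard hcb' hg
        hApos hlog hD1 hDlog (fun i => ⟨k i, hk i⟩) hcon ?_ m1 m2 l hm hl1 ?_
      · intro m1 m2 l hm hl1 hl
        rw [hTe] at hm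
        exact ih (by omega) m1 m2 l hm hl1 hl
      · have : 4 + s = 3 + (s + 1) := by omega
        rw [this]
        exact hl
  apply hc0
  apply h3 ι c A hAinj hApos
  intro l hl1 hl
  have hfin := claim 36 le_rfl 0 0 l (by simpa using htpos) hl1 (hl.trans hcard)
  simpa using hfin

end Pool.Agent.Helper50.BM
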